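import Pool.Agent.Helper32.Cotype.Defs

set_option autoImplicit false

open scoped BigOperators
open MeasureTheory

namespace Pool.Agent.Cotype

namespace RieszAux

/-- the sign of a Boolean -/
noncomputable def sg (b : Bool) : ℝ := if b then 1 else -1

theorem sg_not (b : Bool) : sg (!b) = - sg b := by
  cases b <;> simp [sg]

theorem sg_mul_self (b : Bool) : sg b * sg b = 1 := by
  cases b <;> simp [sg]

theorem sg_pm (b : Bool) : sg b = 1 ∨ sg b = -1 := by
  cases b <;> simp [sg]

theorem PB_of_index {X Y : Type} [Fintype X] [Fintype Y] {ι : Type} [Fintype ι]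
    (u : X → Y → ℝ) (w : ι → ℝ) (f : ι → X → ℝ) (g : ι → Y → ℝ)
    (hw : ∑ j, |w j| ≤ 1) (hf : ∀ j, n43 (f j) ≤ 1) (hg : ∀ j, n43 (g j) ≤ 1)
    (hu : ∀ x y, u x y = ∑ j, w j * (f j x * g j y)) : PB u := by
  classical
  refine ⟨Fintype.card ι, fun j => w ((Fintype.equivFin ι).symm j),
    fun j => f ((Fintype.equivFin ι).symm j), fun j => g ((Fintype.equivFin ι).symm j), ?_, ?_, ?_, ?_⟩
  · rw [Equiv.sum_comp (Fintype.equivFin ι).symm (fun j => |w j|)]
    exact hw
  · intro j; exact hf _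
  · intro j; exact hg _
  · intro x y
    rw [hu x y]
    rw [Equiv.sum_comp (Fintype.equivFin ι).symm (fun j => w j * (f j x * g j y))]

theorem PB_comb {X Y : Type} [Fintype X] [Fintype Y] {ι : Type} [Fintype ι]
    (w : ι → ℝ) (hw : ∑ j, |w j| ≤ 1) (U : ι → X → Y → ℝ) (hU : ∀ j, PB (U j)) :
    PB (fun x y => ∑ j, w j * U j x y) := by
  classical
  choose m v f g hv hf hg hu using hU
  refine PB_of_index (ι := Σ j : ι, Fin (m j)) _ (fun a => w a.1 * v a.1 a.2)
    (fun a => f a.1 a.2) (fun a => g a.1 a.2) ?_ (fun a => hf _ _) (fun a => hg _ _) ?_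
  · rw [Fintype.sum_sigma]
    calc ∑ j, ∑ i, |w j * v j i| = ∑ j, |w j| * ∑ i, |v j i| := by
          refine Finset.sum_congr rfl fun j _ => ?_
          rw [Finset.mul_sum]
          exact Finset.sum_congr rfl fun i _ => abs_mul _ _
      _ ≤ ∑ j, |w j| * 1 := by
          refine Finset.sum_le_sum fun j _ => ?_
          exact mul_le_mul_of_nonneg_left (hv j) (abs_nonneg _)
      _ ≤ 1 := by simpa using hw
  · intro x y
    rw [Fintype.sum_sigma]
    refine Finset.sum_congr rfl fun j _ => ?_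
    rw [hu j x y, Finset.mul_sum]
    refine Finset.sum_congr rfl fun i _ => ?_
    ring

theorem n43_prod {P X : Type} [Fintype P] [DecidableEq P] [Fintype X] (f : P → X → ℝ) :
    n43 (fun x : P → X => ∏ p, f p (x p)) = ∏ p, n43 (f p) := by
  classical
  unfold n43
  have h1 : ∑ x : P → X, |∏ p, f p (x p)| ^ (4/3 : ℝ) = ∏ p, ∑ x : X, |f p x| ^ (4/3 : ℝ) := by
    rw [Fintype.prod_sum]
    refine Finset.sum_congr rfl fun x _ => ?_
    rw [Finset.abs_prod, ← Real.finsetProd_rpow]
    intro p _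
    exact abs_nonneg _
  rw [h1, Real.finsetProd_rpow]
  intro p _
  exact Finset.sum_nonneg fun x _ => Real.rpow_nonneg (abs_nonneg _) _

theorem n43_nonneg {X : Type} [Fintype X] (f : X → ℝ) : 0 ≤ n43 f :=
  Real.rpow_nonneg (Finset.sum_nonneg fun x _ => Real.rpow_nonneg (abs_nonneg _) _) _

theorem PB_pi {P X Y : Type} [Fintype P] [DecidableEq P] [Fintype X] [Fintype Y]
    (T : P → X → Y → ℝ) (hT : ∀ p, PB (T p)) :
    PB (fun (x : P → X) (y : P → Y) => ∏ p, T p (x p) (y p)) := by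
  classical
  choose m v f g hv hf hg hu using hT
  refine PB_of_index (ι := ∀ p : P, Fin (m p)) _ (fun a => ∏ p, v p (a p))
    (fun a x => ∏ p, f p (a p) (x p)) (fun a y => ∏ p, g p (a p) (y p)) ?_ ?_ ?_ ?_
  · have h : ∑ a : (∀ p : P, Fin (m p)), |∏ p, v p (a p)| = ∏ p, ∑ j, |v p j| := by
      rw [Fintype.prod_sum]
      exact Finset.sum_congr rfl fun a _ => Finset.abs_prod _ _
    rw [h]
    exact Finset.prod_le_one (fun p _ => Finset.sum_nonneg fun j _ => abs_nonneg _) (fun p _ => hv p)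
  · intro a
    rw [n43_prod]
    exact Finset.prod_le_one (fun p _ => n43_nonneg _) (fun p _ => hf p _)
  · intro a
    rw [n43_prod]
    exact Finset.prod_le_one (fun p _ => n43_nonneg _) (fun p _ => hg p _)
  · intro x y
    have h : ∏ p, T p (x p) (y p) = ∏ p, ∑ j, v p j * (f p j (x p) * g p j (y p)) :=
      Finset.prod_congr rfl fun p _ => hu p _ _
    show ∏ p, T p (x p) (y p) = _
    rw [h, Fintype.prod_sum]
    refine Finset.sum_congr rfl fun a _ => ?_
    simp only [Finset.prod_mul_distrib]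

/-- flipping one coordinate -/
def flip {A : Type} [DecidableEq A] (a : A) (e : A → Bool) : A → Bool :=
  Function.update e a (! e a)

theorem flip_invol {A : Type} [DecidableEq A] (a : A) : Function.Involutive (flip a) := by
  intro e
  unfold flip
  funext b
  by_cases h : b = a
  · subst h; simp
  · simp [Function.update_of_ne h]

theorem sum_eq_zero_of_flip {A : Type} [DecidableEq A] [Fintype A] (F : (A → Bool) → ℝ) (a : A)
    (h : ∀ e, F (flip a e) = - F e) : ∑ e, F e = 0 := by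
  have h1 : ∑ e, F (flip a e) = ∑ e, F e :=
    Equiv.sum_comp (Function.Involutive.toPerm (flip a) (flip_invol a)) F
  have h2 : ∑ e, F (flip a e) = - ∑ e, F e := by
    rw [← Finset.sum_neg_distrib]
    exact Finset.sum_congr rfl fun e _ => h e
  linarith

variable {n : ℕ}

/-- the characters of the Riesz product -/
noncomputable def gam (i : Fin n) (e : (Fin n × Fin n) × Fin 3 → Bool) : ℝ :=
  ∏ p : Fin n × Fin n, sg (e (p, code i p))

theorem gam_flip_same (i : Fin n) (p : Fin n × Fin n) (e : (Fin n × Fin n) × Fin 3 → Bool) :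
    gam i (flip (p, code i p) e) = - gam i e := by
  unfold gam
  rw [← Finset.mul_prod_erase Finset.univ _ (Finset.mem_univ p),
    ← Finset.mul_prod_erase Finset.univ (fun p => sg (e (p, code i p))) (Finset.mem_univ p)]
  have h : ∏ x ∈ Finset.univ.erase p, sg (flip (p, code i p) e (x, code i x))
      = ∏ x ∈ Finset.univ.erase p, sg (e (x, code i x)) := by
    refine Finset.prod_congr rfl fun x hx => ?_
    have hne : x ≠ p := Finset.ne_of_mem_erase hx
    have : (x, code i x) ≠ (p, code i p) := by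
      intro h
      exact hne (Prod.mk.inj h).1
    simp [flip, Function.update_of_ne this]
  rw [h]
  simp [flip, sg_not]

theorem gam_flip_of_ne (i : Fin n) (p : Fin n × Fin n) (l : Fin 3) (hl : code i p ≠ l)
    (e : (Fin n × Fin n) × Fin 3 → Bool) :
    gam i (flip (p, l) e) = gam i e := by
  unfold gam
  refine Finset.prod_congr rfl fun x _ => ?_
  have : (x, code i x) ≠ (p, l) := by
    intro h
    have h1 := (Prod.mk.inj h).1
    have h2 := (Prod.mk.inj h).2
    subst h1
    exact hl h2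
  simp [flip, Function.update_of_ne this]

theorem kap_flip_same (κ : Fin n × Fin n → Fin 3) (p : Fin n × Fin n)
    (e : (Fin n × Fin n) × Fin 3 → Bool) :
    ∏ x, sg (flip (p, κ p) e (x, κ x)) = - ∏ x, sg (e (x, κ x)) := by
  rw [← Finset.mul_prod_erase Finset.univ _ (Finset.mem_univ p),
    ← Finset.mul_prod_erase Finset.univ (fun x => sg (e (x, κ x))) (Finset.mem_univ p)]
  have h : ∏ x ∈ Finset.univ.erase p, sg (flip (p, κ p) e (x, κ x))
      = ∏ x ∈ Finset.univ.erase p, sg (e (x, κ x)) := by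
    refine Finset.prod_congr rfl fun x hx => ?_
    have hne : x ≠ p := Finset.ne_of_mem_erase hx
    have : (x, κ x) ≠ (p, κ p) := by
      intro h
      exact hne (Prod.mk.inj h).1
    simp [flip, Function.update_of_ne this]
  rw [h]
  simp [flip, sg_not]

theorem kap_flip_of_ne (κ : Fin n × Fin n → Fin 3) (p : Fin n × Fin n) (l : Fin 3) (hl : κ p ≠ l)
    (e : (Fin n × Fin n) × Fin 3 → Bool) :
    ∏ x, sg (flip (p, l) e (x, κ x)) = ∏ x, sg (e (x, κ x)) := by
  refine Finset.prod_congr rfl fun x _ => ?_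
  have : (x, κ x) ≠ (p, l) := by
    intro h
    have h1 := (Prod.mk.inj h).1
    have h2 := (Prod.mk.inj h).2
    subst h1
    exact hl h2
  simp [flip, Function.update_of_ne this]

/-- if exactly the index `i ∈ S` uses coordinate `l` in block `p`, flipping changes the sign -/
theorem prodS_flip (S : Finset (Fin n)) (i : Fin n) (hi : i ∈ S) (p : Fin n × Fin n) (l : Fin 3)
    (hil : code i p = l) (hk : ∀ k ∈ S, k ≠ i → code k p ≠ l)
    (e : (Fin n × Fin n) × Fin 3 → Bool) :
    ∏ k ∈ S, gam k (flip (p, l) e) = - ∏ k ∈ S, gam k e := by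
  rw [← Finset.mul_prod_erase S _ hi, ← Finset.mul_prod_erase S (fun k => gam k e) hi]
  have h : ∏ k ∈ S.erase i, gam k (flip (p, l) e) = ∏ k ∈ S.erase i, gam k e := by
    refine Finset.prod_congr rfl fun k hk' => ?_
    exact gam_flip_of_ne k p l (hk k (Finset.mem_of_mem_erase hk') (Finset.ne_of_mem_erase hk')) e
  rw [h]
  subst hil
  rw [gam_flip_same]
  ring

theorem code_one (i : Fin n) (j : Fin n) : code i (i, j) = 1 := by simp [code]

theorem code_ne_one (i j k : Fin n) (h : k ≠ i) : code k (i, j) ≠ 1 := by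
  unfold code
  rw [if_neg (by simpa using fun h' : i = k => h h'.symm)]
  split_ifs <;> decide

theorem code_two (i j : Fin n) (h : j ≠ i) : code j (i, j) = 2 := by
  unfold code
  rw [if_neg (by simpa using fun h' : i = j => h h'.symm)]
  simp

theorem code_ne_two (i j k : Fin n) (h : k ≠ j) : code k (i, j) ≠ 2 := by
  unfold code
  split_ifs with h1 h2
  · decide
  · exact absurd h2.symm h
  · decide

/-- the basic orthogonality relation -/
theorem sum_gam (S : Finset (Fin n)) (hS : S.Nonempty) :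
    ∑ e : (Fin n × Fin n) × Fin 3 → Bool, ∏ i ∈ S, gam i e = 0 := by
  obtain ⟨i, hi⟩ := hS
  refine sum_eq_zero_of_flip _ ((i, i), 1) fun e => ?_
  exact prodS_flip S i hi (i, i) 1 (code_one i i) (fun k _ hk => code_ne_one i i k hk) e

theorem sum_gam_kap_empty (hn : 0 < n) (κ : Fin n × Fin n → Fin 3) :
    ∑ e : (Fin n × Fin n) × Fin 3 → Bool, ∏ x, sg (e (x, κ x)) = 0 := by
  have p : Fin n × Fin n := (⟨0, hn⟩, ⟨0, hn⟩)
  exact sum_eq_zero_of_flip _ (p, κ p) fun e => kap_flip_same κ p e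

theorem sum_gam_kap_two (S : Finset (Fin n)) (hS : 1 < S.card) (κ : Fin n × Fin n → Fin 3) :
    ∑ e : (Fin n × Fin n) × Fin 3 → Bool, (∏ i ∈ S, gam i e) * ∏ x, sg (e (x, κ x)) = 0 := by
  obtain ⟨i, hi, j, hj, hij⟩ := Finset.one_lt_card.mp hS
  by_cases h : κ (i, j) = 1
  · refine sum_eq_zero_of_flip _ ((i, j), 2) fun e => ?_
    rw [prodS_flip S j hj (i, j) 2 (code_two i j (Ne.symm hij)) (fun k _ hk => code_ne_two i j k hk) e,
      kap_flip_of_ne κ (i, j) 2 (by rw [h]; decide) e]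
    ring
  · refine sum_eq_zero_of_flip _ ((i, j), 1) fun e => ?_
    rw [prodS_flip S i hi (i, j) 1 (code_one i j) (fun k _ hk => code_ne_one i j k hk) e,
      kap_flip_of_ne κ (i, j) 1 h e]
    ring

theorem sum_gam_kap_one (i : Fin n) (κ : Fin n × Fin n → Fin 3) :
    ∑ e : (Fin n × Fin n) × Fin 3 → Bool, gam i e * ∏ x, sg (e (x, κ x))
      = if κ = code i then (Fintype.card ((Fin n × Fin n) × Fin 3 → Bool) : ℝ) else 0 := by
  split_ifs with h
  · subst h
    have : ∀ e : (Fin n × Fin n) × Fin 3 → Bool, gam i e * ∏ x, sg (e (x, code i x)) = 1 := by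
      intro e
      unfold gam
      rw [← Finset.prod_mul_distrib]
      exact Finset.prod_eq_one fun p _ => sg_mul_self _
    rw [Finset.sum_congr rfl fun e _ => this e]
    simp
  · have : ∃ p, κ p ≠ code i p := by
      by_contra hcon
      push Not at hcon
      exact h (funext hcon)
    obtain ⟨p, hp⟩ := this
    refine sum_eq_zero_of_flip _ (p, κ p) fun e => ?_
    rw [gam_flip_of_ne i p (κ p) (Ne.symm hp) e, kap_flip_same κ p e]
    ring

/-- the Riesz product -/
noncomputable def phi (δ : Fin n → ℝ) (e : (Fin n × Fin n) × Fin 3 → Bool) : ℝ :=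
  ∏ i, (1 + δ i * gam i e)

theorem gam_pm (i : Fin n) (e : (Fin n × Fin n) × Fin 3 → Bool) : gam i e = 1 ∨ gam i e = -1 := by
  unfold gam
  refine Finset.prod_induction _ (fun x : ℝ => x = 1 ∨ x = -1) ?_ (Or.inl rfl) (fun p _ => sg_pm _)
  rintro a b (rfl | rfl) (rfl | rfl) <;> simp

theorem phi_nonneg (δ : Fin n → ℝ) (hδ : ∀ i, δ i = 1 ∨ δ i = -1)
    (e : (Fin n × Fin n) × Fin 3 → Bool) : 0 ≤ phi δ e := by
  unfold phi
  refine Finset.prod_nonneg fun i _ => ?_
  rcases hδ i with h | h <;> rcases gam_pm i e with h' | h' <;> rw [h, h'] <;> norm_num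

theorem phi_expand (δ : Fin n → ℝ) (e : (Fin n × Fin n) × Fin 3 → Bool) :
    phi δ e = ∑ S : Finset (Fin n), (∏ i ∈ S, δ i) * ∏ i ∈ S, gam i e := by
  unfold phi
  rw [Finset.prod_one_add]
  rw [Finset.powerset_univ]
  refine Finset.sum_congr rfl fun S _ => ?_
  rw [Finset.prod_mul_distrib]

theorem sum_phi (δ : Fin n → ℝ) :
    ∑ e : (Fin n × Fin n) × Fin 3 → Bool, phi δ e
      = (Fintype.card ((Fin n × Fin n) × Fin 3 → Bool) : ℝ) := by
  simp_rw [phi_expand]
  rw [Finset.sum_comm]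
  rw [Finset.sum_eq_single (∅ : Finset (Fin n))]
  · simp
  · intro S _ hS
    rw [← Finset.mul_sum, sum_gam S (Finset.nonempty_iff_ne_empty.mpr hS), mul_zero]
  · intro h; exact absurd (Finset.mem_univ _) h

theorem main_identity (hn : 0 < n) (δ : Fin n → ℝ) (v : Fin 3 → Fin n × Fin n → ℝ) :
    ∑ e : (Fin n × Fin n) × Fin 3 → Bool,
        phi δ e * ∏ p : Fin n × Fin n, ∑ l : Fin 3, sg (e (p, l)) * v l p
      = (Fintype.card ((Fin n × Fin n) × Fin 3 → Bool) : ℝ) *
        ∑ i, δ i * ∏ p : Fin n × Fin n, v (code i p) p := by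
  have h1 : ∀ e : (Fin n × Fin n) × Fin 3 → Bool,
      phi δ e * ∏ p : Fin n × Fin n, ∑ l : Fin 3, sg (e (p, l)) * v l p
      = ∑ S : Finset (Fin n), ∑ κ : Fin n × Fin n → Fin 3,
        ((∏ i ∈ S, δ i) * ∏ p, v (κ p) p) * ((∏ i ∈ S, gam i e) * ∏ p, sg (e (p, κ p))) := by
    intro e
    rw [phi_expand, Fintype.prod_sum, Finset.sum_mul_sum]
    refine Finset.sum_congr rfl fun S _ => Finset.sum_congr rfl fun κ _ => ?_
    rw [Finset.prod_mul_distrib]
    ring
  rw [Finset.sum_congr rfl fun e _ => h1 e]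
  rw [Finset.sum_comm]
  have h2 : ∀ S : Finset (Fin n),
      ∑ e : (Fin n × Fin n) × Fin 3 → Bool, ∑ κ : Fin n × Fin n → Fin 3,
        ((∏ i ∈ S, δ i) * ∏ p, v (κ p) p) * ((∏ i ∈ S, gam i e) * ∏ p, sg (e (p, κ p)))
      = ∑ κ : Fin n × Fin n → Fin 3, ((∏ i ∈ S, δ i) * ∏ p, v (κ p) p) *
        ∑ e : (Fin n × Fin n) × Fin 3 → Bool, (∏ i ∈ S, gam i e) * ∏ p, sg (e (p, κ p)) := by
    intro S
    rw [Finset.sum_comm]
    refine Finset.sum_congr rfl fun κ _ => ?_
    rw [Finset.mul_sum]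
  rw [Finset.sum_congr rfl fun S _ => h2 S]
  have h3 : ∀ S : Finset (Fin n), S.card ≠ 1 →
      ∑ κ : Fin n × Fin n → Fin 3, ((∏ i ∈ S, δ i) * ∏ p, v (κ p) p) *
        ∑ e : (Fin n × Fin n) × Fin 3 → Bool, (∏ i ∈ S, gam i e) * ∏ p, sg (e (p, κ p)) = 0 := by
    intro S hS
    refine Finset.sum_eq_zero fun κ _ => ?_
    rcases Nat.lt_or_gt_of_ne hS with h | h
    · have hS0 : S = ∅ := Finset.card_eq_zero.mp (by omega)
      subst hS0
      have := sum_gam_kap_empty hn κ
      simp only [Finset.prod_empty, one_mul]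
      rw [this, mul_zero]
    · rw [sum_gam_kap_two S h κ, mul_zero]
  have h4 : ∑ S : Finset (Fin n), ∑ κ : Fin n × Fin n → Fin 3, ((∏ i ∈ S, δ i) * ∏ p, v (κ p) p) *
        ∑ e : (Fin n × Fin n) × Fin 3 → Bool, (∏ i ∈ S, gam i e) * ∏ p, sg (e (p, κ p))
      = ∑ S ∈ Finset.univ.image (fun i : Fin n => ({i} : Finset (Fin n))),
        ∑ κ : Fin n × Fin n → Fin 3, ((∏ i ∈ S, δ i) * ∏ p, v (κ p) p) *
        ∑ e : (Fin n × Fin n) × Fin 3 → Bool, (∏ i ∈ S, gam i e) * ∏ p, sg (e (p, κ p)) := by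
    symm
    refine Finset.sum_subset (Finset.subset_univ _) fun S _ hS => ?_
    refine h3 S fun hc => hS ?_
    obtain ⟨i, rfl⟩ := Finset.card_eq_one.mp hc
    exact Finset.mem_image.mpr ⟨i, Finset.mem_univ _, rfl⟩
  rw [h4, Finset.sum_image (by
    intro a _ b _ hab
    exact Finset.singleton_injective hab)]
  rw [Finset.mul_sum]
  refine Finset.sum_congr rfl fun i _ => ?_
  simp only [Finset.prod_singleton]
  simp_rw [sum_gam_kap_one]
  rw [Finset.sum_eq_single (code i)]
  · simp; ring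
  · intro κ _ hκ
    rw [if_neg hκ, mul_zero]
  · intro h; exact absurd (Finset.mem_univ _) h

theorem PB_zero {X Y : Type} [Fintype X] [Fintype Y] : PB (fun (_ : X) (_ : Y) => (0:ℝ)) := by
  refine ⟨0, fun j => 0, fun j _ => 0, fun j _ => 0, by simp, fun j => j.elim0, fun j => j.elim0, ?_⟩
  intro x y
  simp

end RieszAux

open RieszAux

/-! R3: Riesz product. -/
theorem riesz {X : Type} [Fintype X] (u : Fin 3 → X → X → ℝ)
    (hu : ∀ δ : Fin 3 → ℝ, (∀ i, δ i = 1 ∨ δ i = -1) → PB (fun x y => ∑ i, δ i * u i x y))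
    (n : ℕ) (δ : Fin n → ℝ) (hδ : ∀ i, δ i = 1 ∨ δ i = -1) :
    PB (fun (x y : Fin n × Fin n → X) => ∑ i, δ i * ∏ p, u (code i p) (x p) (y p)) := by
  classical
  rcases Nat.eq_zero_or_pos n with hn | hn
  · subst hn
    have : (fun (x y : Fin 0 × Fin 0 → X) => ∑ i : Fin 0, δ i * ∏ p, u (code i p) (x p) (y p))
        = fun _ _ => (0:ℝ) := by
      funext x y
      simp
    rw [this]
    exact PB_zero
  · set N : ℝ := (Fintype.card ((Fin n × Fin n) × Fin 3 → Bool) : ℝ) with hN
    have hNpos : 0 < N := by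
      rw [hN]
      exact_mod_cast Fintype.card_pos
    have key := PB_comb (X := Fin n × Fin n → X) (Y := Fin n × Fin n → X)
      (ι := (Fin n × Fin n) × Fin 3 → Bool) (fun e => phi δ e / N)
      (by
        have : ∀ e : (Fin n × Fin n) × Fin 3 → Bool, |phi δ e / N| = phi δ e / N := fun e =>
          abs_of_nonneg (div_nonneg (phi_nonneg δ hδ e) hNpos.le)
        rw [Finset.sum_congr rfl fun e _ => this e, ← Finset.sum_div, sum_phi, ← hN,
          div_self hNpos.ne'])
      (fun e x y => ∏ p : Fin n × Fin n, ∑ l : Fin 3, sg (e (p, l)) * u l (x p) (y p))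
      (fun e => PB_pi (fun p x y => ∑ l : Fin 3, sg (e (p, l)) * u l x y)
        (fun p => hu (fun l => sg (e (p, l))) (fun l => sg_pm _)))
    have heq : (fun (x y : Fin n × Fin n → X) => ∑ i, δ i * ∏ p, u (code i p) (x p) (y p))
        = (fun x y => ∑ e : (Fin n × Fin n) × Fin 3 → Bool, phi δ e / N *
          ∏ p : Fin n × Fin n, ∑ l : Fin 3, sg (e (p, l)) * u l (x p) (y p)) := by
      funext x y
      have h := main_identity hn δ (fun l p => u l (x p) (y p))
      have h' : ∑ e : (Fin n × Fin n) × Fin 3 → Bool, phi δ e / N *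
          ∏ p : Fin n × Fin n, ∑ l : Fin 3, sg (e (p, l)) * u l (x p) (y p)
          = (∑ e : (Fin n × Fin n) × Fin 3 → Bool, phi δ e *
          ∏ p : Fin n × Fin n, ∑ l : Fin 3, sg (e (p, l)) * u l (x p) (y p)) / N := by
        rw [Finset.sum_div]
        refine Finset.sum_congr rfl fun e _ => ?_
        ring
      rw [h', h, ← hN, mul_div_cancel_left₀ _ hNpos.ne']
    rw [heq]
    exact key

end Pool.Agent.Cotype
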